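import Mathlib

namespace Pool.Agent.Results.MP_e3277b_lc.Counter

universe u

/-- Unimodal formulas over countably many variables. -/
inductive Fm
  | var (n : ℕ)
  | bot
  | imp (a b : Fm)
  | box (a : Fm)
  deriving DecidableEq

/-- The variables of a formula. -/
def sig : Fm → Set ℕ
  | .var n => {n}
  | .bot => ∅
  | .imp a b => sig a ∪ sig b
  | .box a => sig a

/-- Uniform substitution. -/
def subst (s : ℕ → Fm) : Fm → Fm
  | .var n => s n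
  | .bot => .bot
  | .imp a b => .imp (subst s a) (subst s b)
  | .box a => .box (subst s a)

/-- Instances of propositional tautologies. -/
def Taut (φ : Fm) : Prop :=
  ∀ v : Fm → Prop, ¬ v .bot → (∀ a b, v (.imp a b) ↔ (v a → v b)) → v φ

/-- Normal modal logics. -/
def Normal (L : Set Fm) : Prop :=
  (∀ φ, Taut φ → φ ∈ L) ∧
  (∀ a b, Fm.imp (.box (.imp a b)) (.imp (.box a) (.box b)) ∈ L) ∧
  (∀ a b, Fm.imp a b ∈ L → a ∈ L → b ∈ L) ∧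
  (∀ a, a ∈ L → Fm.box a ∈ L) ∧
  (∀ s a, a ∈ L → subst s a ∈ L)

/-- Truth at a point of a Kripke model. -/
def Sat {W : Type u} (R : W → W → Prop) (V : ℕ → W → Prop) : Fm → W → Prop
  | .var n, x => V n x
  | .bot, _ => False
  | .imp a b, x => Sat R V a x → Sat R V b x
  | .box a, x => ∀ y, R x y → Sat R V a y

/-- The Kripke frame validates `L`. -/
def FrameFor (L : Set Fm) {W : Type u} (R : W → W → Prop) : Prop :=
  ∀ φ ∈ L, ∀ V x, Sat R V φ x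

/-- `Z` is a `σ`-bisimulation. -/
def Bisim (σ : Set ℕ) {W₁ W₂ : Type u} (R₁ : W₁ → W₁ → Prop) (V₁ : ℕ → W₁ → Prop)
    (R₂ : W₂ → W₂ → Prop) (V₂ : ℕ → W₂ → Prop) (Z : W₁ → W₂ → Prop) : Prop :=
  ∀ x y, Z x y → (∀ n ∈ σ, V₁ n x ↔ V₂ n y) ∧ (∀ x', R₁ x x' → ∃ y', R₂ y y' ∧ Z x' y') ∧
    (∀ y', R₂ y y' → ∃ x', R₁ x x' ∧ Z x' y')

/-- `φ₁, φ₂` have a Craig interpolant in `L`. -/
def HasInterp (L : Set Fm) (φ₁ φ₂ : Fm) : Prop :=
  ∃ ι, sig ι ⊆ sig φ₁ ∩ sig φ₂ ∧ Fm.imp φ₁ ι ∈ L ∧ Fm.imp ι φ₂ ∈ L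

/-- The Kripke criterion. -/
def KripkeCrit (L : Set Fm) : Prop :=
  ∀ φ₁ φ₂, ¬ HasInterp L φ₁ φ₂ ↔
    ∃ (W₁ W₂ : Type u) (R₁ : W₁ → W₁ → Prop) (V₁ : ℕ → W₁ → Prop) (R₂ : W₂ → W₂ → Prop)
      (V₂ : ℕ → W₂ → Prop) (Z : W₁ → W₂ → Prop) (x₁ : W₁) (x₂ : W₂),
      FrameFor L R₁ ∧ FrameFor L R₂ ∧ Bisim (sig φ₁ ∩ sig φ₂) R₁ V₁ R₂ V₂ Z ∧ Z x₁ x₂ ∧
        Sat R₁ V₁ φ₁ x₁ ∧ ¬ Sat R₂ V₂ φ₂ x₂

/-- `Γ` is `L`-consistent: `a₁ → ⋯ → aₙ → ⊥` is not in `L` for `aᵢ ∈ Γ`. -/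
def Consistent (L Γ : Set Fm) : Prop :=
  ¬ ∃ l : List Fm, (∀ a ∈ l, a ∈ Γ) ∧ l.foldr Fm.imp Fm.bot ∈ L

/-- Strong Kripke completeness. -/
def StronglyComplete (L : Set Fm) : Prop :=
  ∀ Γ, Consistent L Γ → ∃ (W : Type u) (R : W → W → Prop) (V : ℕ → W → Prop) (x : W),
    FrameFor L R ∧ ∀ φ ∈ Γ, Sat R V φ x

structure PM where
  W : Type
  fin : Finite W
  R : W → W → Prop
  tr : ∀ a b c, R a b → R b c → R a c
  ir : ∀ a, ¬ R a a
  V : ℕ → W → Prop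
  x : W

def PM.sat (m : PM) (φ : Fm) : Prop := Sat m.R m.V φ m.x
def PM.at (m : PM) (y : m.W) : PM := { m with x := y }
def Lob : Set Fm := {φ | ∀ m : PM, m.sat φ}

lemma sat_subst {W : Type u} (R : W → W → Prop) (V : ℕ → W → Prop) (s : ℕ → Fm) (a : Fm) :
    ∀ x, Sat R V (subst s a) x ↔ Sat R (fun n y => Sat R V (s n) y) a x := by
  induction a with
  | var n => intro x; rfl
  | bot => intro x; rfl
  | imp a b iha ihb => intro x; simp only [subst, Sat, iha, ihb]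
  | box a iha => intro x; simp only [subst, Sat, iha]

lemma normal : Normal Lob := by
  refine ⟨fun φ h m => h (fun a => m.sat a) (fun h => h) (fun a b => Iff.rfl), ?_, ?_, ?_, ?_⟩
  · intro a b m h1 h2 y hy; exact h1 y hy (h2 y hy)
  · intro a b h1 h2 m; exact h1 m (h2 m)
  · intro a h m y hy; exact h (m.at y)
  · intro s a h m
    exact (sat_subst _ _ s a _).2 (h { m with V := fun n y => Sat m.R m.V (s n) y })

lemma exmax (m : PM) (p : m.W → Prop) (y : m.W) (hy : p y) :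
    ∃ z, p z ∧ ∀ w, m.R z w → ¬ p w := by
  haveI := m.fin
  haveI : IsTrans m.W (fun a b => m.R b a) := ⟨fun a b c h1 h2 => m.tr _ _ _ h2 h1⟩
  haveI : Std.Irrefl (fun a b => m.R b a) := ⟨fun a => m.ir a⟩
  have wf : WellFounded (fun a b => m.R b a) := Finite.wellFounded_of_trans_of_irrefl _
  obtain ⟨z, hz, hm⟩ := wf.has_min {w | p w} ⟨y, hy⟩
  exact ⟨z, hz, fun w hw hp => hm w hp hw⟩

lemma bisim_sat {σ : Set ℕ} {W₁ : Type u} {W₂ : Type u} {R₁ : W₁ → W₁ → Prop}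
    {V₁ : ℕ → W₁ → Prop} {R₂ : W₂ → W₂ → Prop} {V₂ : ℕ → W₂ → Prop} {Z : W₁ → W₂ → Prop}
    (h : Bisim σ R₁ V₁ R₂ V₂ Z) (a : Fm) (ha : sig a ⊆ σ) :
    ∀ x y, Z x y → (Sat R₁ V₁ a x ↔ Sat R₂ V₂ a y) := by
  induction a with
  | var n => intro x y hz; exact (h x y hz).1 n (ha rfl)
  | bot => intro x y hz; rfl
  | imp a b iha ihb =>
    intro x y hz
    simp only [Sat, iha (fun n hn => ha (Or.inl hn)) x y hz, ihb (fun n hn => ha (Or.inr hn)) x y hz]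
  | box a iha =>
    intro x y hz
    constructor
    · intro H y' hy'
      obtain ⟨x', h1, h2⟩ := (h x y hz).2.2 y' hy'
      exact (iha ha x' y' h2).1 (H x' h1)
    · intro H x' hx'
      obtain ⟨y', h1, h2⟩ := (h x y hz).2.1 x' hx'
      exact (iha ha x' y' h2).2 (H y' h1)

def Sep (σ : Set ℕ) (P Q : PM → Prop) : Prop :=
  ∃ ι, sig ι ⊆ σ ∧ (∀ m, P m → m.sat ι) ∧ ∀ m, Q m → ¬ m.sat ι

lemma Sep.symm {σ P Q} (h : Sep σ P Q) : Sep σ Q P := by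
  obtain ⟨ι, h1, h2, h3⟩ := h
  refine ⟨.imp ι .bot, ?_, fun m hm hs => h3 m hm hs, fun m hm hs => hs (h2 m hm)⟩
  simpa [sig] using h1

lemma Sep.mono {σ} {P Q P' Q' : PM → Prop} (h : Sep σ P Q) (h1 : ∀ m, P' m → P m)
    (h2 : ∀ m, Q' m → Q m) : Sep σ P' Q' := by
  obtain ⟨ι, a, b, c⟩ := h
  exact ⟨ι, a, fun m hm => b m (h1 m hm), fun m hm => c m (h2 m hm)⟩

lemma sep_union {σ} {ι : Type} (s : Finset ι) (P : ι → PM → Prop) (Q : PM → Prop)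
    (h : ∀ i ∈ s, Sep σ (P i) Q) : Sep σ (fun m => ∃ i ∈ s, P i m) Q := by
  classical
  induction s using Finset.induction_on with
  | empty => exact ⟨.bot, by simp [sig], by simp, fun m _ h => h⟩
  | insert a s _ ih =>
    obtain ⟨i1, a1, b1, c1⟩ := ih (fun i hi => h i (Finset.mem_insert_of_mem hi))
    obtain ⟨i2, a2, b2, c2⟩ := h a (Finset.mem_insert_self _ _)
    refine ⟨.imp (.imp i1 .bot) i2, ?_, ?_, ?_⟩
    · simp only [sig, Set.union_empty, Set.union_subset_iff]; exact ⟨a1, a2⟩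
    · rintro m ⟨i, hi, hp⟩ hn
      rcases Finset.mem_insert.1 hi with rfl | hi
      · exact b2 m hp
      · exact (hn (b1 m ⟨i, hi, hp⟩)).elim
    · intro m hm hs
      exact c2 m hm (hs (c1 m hm))

def real (X S : Finset Fm) (m : PM) : Prop := ∀ ψ ∈ X, m.sat ψ ↔ ψ ∈ S

lemma refine1 {σ} {P Q : PM → Prop} (X : Finset Fm) (h : ¬ Sep σ P Q) :
    ∃ S ⊆ X, ¬ Sep σ (fun m => P m ∧ real X S m) Q := by
  classical
  by_contra hc
  push Not at hc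
  refine h ((sep_union X.powerset (fun S m => P m ∧ real X S m) Q
    (fun S hS => hc S (Finset.mem_powerset.1 hS))).mono (fun m hm => ?_) (fun _ h => h))
  exact ⟨X.filter m.sat, Finset.mem_powerset.2 (Finset.filter_subset _ _), hm,
    fun ψ hψ => by simp [hψ]⟩

lemma refine2 {σ} {P Q : PM → Prop} (X Y : Finset Fm) (h : ¬ Sep σ P Q) :
    ∃ S ⊆ X, ∃ T ⊆ Y, ¬ Sep σ (real X S) (real Y T) ∧ (∃ m, P m ∧ real X S m) ∧
      ∃ m, Q m ∧ real Y T m := by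
  obtain ⟨S, hS, h1⟩ := refine1 X h
  obtain ⟨T, hT, h2⟩ := refine1 Y (fun h' => h1 (Sep.symm h'))
  refine ⟨S, hS, T, hT, fun h' => h2 (h'.symm.mono (fun _ h => h.2) (fun _ h => h.2)), ?_, ?_⟩
  · by_contra hc
    exact h2 ⟨.imp .bot .bot, by simp [sig], fun m _ h => h, fun m hm _ => hc ⟨m, hm⟩⟩
  · by_contra hc
    exact h2 ⟨.bot, by simp [sig], fun m hm => hc ⟨m, hm⟩, fun m _ h => h⟩

def Cl (X : Finset Fm) : Prop :=
  (∀ a b, Fm.imp a b ∈ X → a ∈ X ∧ b ∈ X) ∧ ∀ a, Fm.box a ∈ X → a ∈ X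

def Prec (S S' : Finset Fm) : Prop := ∀ χ, Fm.box χ ∈ S → χ ∈ S' ∧ Fm.box χ ∈ S'

lemma key {σ} {X Y S T : Finset Fm} (hX : Cl X) (hY : Cl Y) (hS : S ⊆ X) (hT : T ⊆ Y)
    (h : ¬ Sep σ (real X S) (real Y T)) {ψ : Fm} (h1 : Fm.box ψ ∈ X) (h2 : Fm.box ψ ∉ S) :
    ∃ S' ⊆ X, ∃ T' ⊆ Y, ¬ Sep σ (real X S') (real Y T') ∧ Prec S S' ∧ Prec T T' ∧
      Fm.box ψ ∈ S' ∧ ψ ∉ S' := by
  have H : ¬ Sep σ (fun m => (∀ χ, Fm.box χ ∈ S → m.sat χ ∧ m.sat (.box χ)) ∧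
      m.sat (.box ψ) ∧ ¬ m.sat ψ) (fun m => ∀ χ, Fm.box χ ∈ T → m.sat χ ∧ m.sat (.box χ)) := by
    rintro ⟨ι, a, b, c⟩
    refine h ⟨.imp (.box (.imp ι .bot)) .bot, by simpa [sig] using a, ?_, ?_⟩
    · intro m hm hb
      have hn : ¬ m.sat (.box ψ) := fun h => h2 ((hm _ h1).1 h)
      have : ∃ y, m.R m.x y ∧ ¬ Sat m.R m.V ψ y := by
        by_contra hc
        push Not at hc
        exact hn hc
      obtain ⟨y, hy⟩ := this
      obtain ⟨z, hz, hmax⟩ := exmax m (fun y => m.R m.x y ∧ ¬ Sat m.R m.V ψ y) y hy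
      refine hb z hz.1 (b (m.at z) ⟨fun χ hχ => ?_, fun w hw => ?_, hz.2⟩)
      · have := (hm _ (hS hχ)).2 hχ
        exact ⟨this z hz.1, fun w hw => this w (m.tr _ _ _ hz.1 hw)⟩
      · by_contra hc
        exact hmax w hw ⟨m.tr _ _ _ hz.1 hw, hc⟩
    · intro m hm hb
      refine hb (fun z hz hs => c (m.at z) (fun χ hχ => ?_) hs)
      have := (hm _ (hT hχ)).2 hχ
      exact ⟨this z hz, fun w hw => this w (m.tr _ _ _ hz hw)⟩
  obtain ⟨S', a, T', b, c, ⟨m, ⟨d1, d2, d3⟩, d⟩, ⟨m', e1, e⟩⟩ := refine2 X Y H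
  refine ⟨S', a, T', b, c, fun χ hχ => ?_, fun χ hχ => ?_, (d _ h1).1 d2,
    fun h => d3 ((d _ (hX.2 _ h1)).2 h)⟩
  · exact ⟨(d _ (hX.2 _ (hS hχ))).1 (d1 χ hχ).1, (d _ (hS hχ)).1 (d1 χ hχ).2⟩
  · exact ⟨(e _ (hY.2 _ (hT hχ))).1 (e1 χ hχ).1, (e _ (hT hχ)).1 (e1 χ hχ).2⟩

def Pt (σ : Set ℕ) (X Y : Finset Fm) : Type :=
  {p : Finset Fm × Finset Fm // p.1 ⊆ X ∧ p.2 ⊆ Y ∧ ¬ Sep σ (real X p.1) (real Y p.2)}

instance (σ X Y) : Finite (Pt σ X Y) := by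
  have : Set.Finite {p : Finset Fm × Finset Fm |
      p.1 ⊆ X ∧ p.2 ⊆ Y ∧ ¬ Sep σ (real X p.1) (real Y p.2)} :=
    (X.powerset ×ˢ Y.powerset).finite_toSet.subset (fun p hp => by simp [hp.1, hp.2.1])
  exact this

def PR {σ X Y} (p q : Pt σ X Y) : Prop :=
  Prec p.1.1 q.1.1 ∧ Prec p.1.2 q.1.2 ∧
    ∃ χ, (Fm.box χ ∈ q.1.1 ∧ Fm.box χ ∉ p.1.1) ∨ (Fm.box χ ∈ q.1.2 ∧ Fm.box χ ∉ p.1.2)

def PV {σ X Y} (n : ℕ) (p : Pt σ X Y) : Prop := Fm.var n ∈ p.1.1 ∨ Fm.var n ∈ p.1.2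

def canon {σ X Y} (p : Pt σ X Y) : PM where
  W := Pt σ X Y
  fin := inferInstance
  R := PR
  tr := by
    rintro a b c ⟨h1, h2, χ, h3⟩ ⟨g1, g2, -⟩
    refine ⟨fun χ h => g1 χ (h1 χ h).2, fun χ h => g2 χ (h2 χ h).2, χ, ?_⟩
    rcases h3 with h3 | h3
    · exact Or.inl ⟨(g1 χ h3.1).2, h3.2⟩
    · exact Or.inr ⟨(g2 χ h3.1).2, h3.2⟩
  ir := by
    rintro a ⟨-, -, χ, h | h⟩ <;> exact h.2 h.1
  V := PV
  x := p

lemma exreal {σ P Q} (h : ¬ Sep σ P Q) : ∃ m, P m := by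
  by_contra hc
  exact h ⟨.bot, by simp [sig], fun m hm => hc ⟨m, hm⟩, fun m _ h => h⟩

lemma agree {σ : Set ℕ} {X Y S T : Finset Fm} (hT : T ⊆ Y)
    (hv : ∀ n, Fm.var n ∈ X → Fm.var n ∈ Y → n ∈ σ) (h : ¬ Sep σ (real X S) (real Y T)) {n}
    (h1 : Fm.var n ∈ X) (h2 : Fm.var n ∈ T) : Fm.var n ∈ S := by
  by_contra hc
  refine h (Sep.symm ⟨.var n, ?_, fun m hm => (hm _ (hT h2)).2 h2,
    fun m hm hs => hc ((hm _ h1).1 hs)⟩)
  simpa [sig] using hv n h1 (hT h2)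

lemma truth1 {σ : Set ℕ} {X Y : Finset Fm} (hX : Cl X) (hY : Cl Y)
    (hv : ∀ n, Fm.var n ∈ X → Fm.var n ∈ Y → n ∈ σ) (ψ : Fm) (hψ : ψ ∈ X) :
    ∀ p : Pt σ X Y, Sat PR PV ψ p ↔ ψ ∈ p.1.1 := by
  induction ψ with
  | var n =>
    intro p
    exact ⟨fun h => h.elim id (agree p.2.2.1 hv p.2.2.2 hψ), Or.inl⟩
  | bot =>
    intro p
    obtain ⟨m, hm⟩ := exreal p.2.2.2
    exact hm _ hψ
  | imp a b iha ihb =>
    intro p
    obtain ⟨m, hm⟩ := exreal p.2.2.2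
    obtain ⟨ha, hb⟩ := hX.1 a b hψ
    simp only [Sat, iha ha, ihb hb, ← hm _ ha, ← hm _ hb, ← hm _ hψ]
    rfl
  | box a iha =>
    intro p
    constructor
    · intro H
      by_contra hc
      obtain ⟨S', a1, T', a2, a3, a4, a5, a6, a7⟩ := key hX hY p.2.1 p.2.2.1 p.2.2.2 hψ hc
      exact a7 ((iha (hX.2 _ hψ) ⟨(S', T'), a1, a2, a3⟩).1
        (H _ ⟨a4, a5, a, Or.inl ⟨a6, hc⟩⟩))
    · intro H q hq
      exact (iha (hX.2 _ hψ) q).2 (hq.1 a H).1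

lemma truth2 {σ : Set ℕ} {X Y : Finset Fm} (hX : Cl X) (hY : Cl Y)
    (hv : ∀ n, Fm.var n ∈ X → Fm.var n ∈ Y → n ∈ σ) (ψ : Fm) (hψ : ψ ∈ Y) :
    ∀ p : Pt σ X Y, Sat PR PV ψ p ↔ ψ ∈ p.1.2 := by
  have sy : ∀ p : Pt σ X Y, ¬ Sep σ (real Y p.1.2) (real X p.1.1) :=
    fun p h => p.2.2.2 h.symm
  induction ψ with
  | var n =>
    intro p
    exact ⟨fun h => h.elim (agree p.2.1 (fun n a b => hv n b a) (sy p) hψ) id, Or.inr⟩
  | bot =>
    intro p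
    obtain ⟨m, hm⟩ := exreal (sy p)
    exact hm _ hψ
  | imp a b iha ihb =>
    intro p
    obtain ⟨m, hm⟩ := exreal (sy p)
    obtain ⟨ha, hb⟩ := hY.1 a b hψ
    simp only [Sat, iha ha, ihb hb, ← hm _ ha, ← hm _ hb, ← hm _ hψ]
    rfl
  | box a iha =>
    intro p
    constructor
    · intro H
      by_contra hc
      obtain ⟨S', a1, T', a2, a3, a4, a5, a6, a7⟩ := key hY hX p.2.2.1 p.2.1 (sy p) hψ hc
      exact a7 ((iha (hY.2 _ hψ) ⟨(T', S'), a2, a1, fun h => a3 h.symm⟩).1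
        (H _ ⟨a5, a4, a, Or.inr ⟨a6, hc⟩⟩))
    · intro H q hq
      exact (iha (hY.2 _ hψ) q).2 (hq.2.1 a H).1

def sub : Fm → Finset Fm
  | .var n => {.var n}
  | .bot => {.bot}
  | .imp a b => insert (.imp a b) (sub a ∪ sub b)
  | .box a => insert (.box a) (sub a)

lemma self_sub (a : Fm) : a ∈ sub a := by cases a <;> simp [sub]

lemma cl_sub (a : Fm) : Cl (sub a) := by
  induction a with
  | var n => constructor <;> simp [sub]
  | bot => constructor <;> simp [sub]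
  | imp a b iha ihb =>
    constructor
    · intro c d h
      simp only [sub, Finset.mem_insert, Finset.mem_union, Fm.imp.injEq] at h ⊢
      rcases h with ⟨rfl, rfl⟩ | h | h
      · simp [self_sub]
      · simp [iha.1 c d h]
      · simp [ihb.1 c d h]
    · intro c h
      simp only [sub, Finset.mem_insert, Finset.mem_union, reduceCtorEq, false_or] at h ⊢
      rcases h with h | h
      · simp [iha.2 c h]
      · simp [ihb.2 c h]
  | box a iha =>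
    constructor
    · intro c d h
      simp only [sub, Finset.mem_insert, reduceCtorEq, false_or] at h ⊢
      simp [iha.1 c d h]
    · intro c h
      simp only [sub, Finset.mem_insert, Fm.box.injEq] at h ⊢
      rcases h with rfl | h
      · simp [self_sub]
      · simp [iha.2 c h]

lemma var_sub (a : Fm) (n : ℕ) (h : Fm.var n ∈ sub a) : n ∈ sig a := by
  induction a with
  | var k => simpa [sub, sig] using h
  | bot => simp [sub] at h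
  | imp a b iha ihb =>
    simp only [sub, Finset.mem_insert, Finset.mem_union, reduceCtorEq, false_or] at h
    exact h.elim (fun h => Or.inl (iha h)) (fun h => Or.inr (ihb h))
  | box a iha =>
    simp only [sub, Finset.mem_insert, reduceCtorEq, false_or] at h
    exact iha h

lemma cip (φ₁ φ₂ : Fm) (h : ¬ HasInterp Lob φ₁ φ₂) : ∃ m : PM, m.sat φ₁ ∧ ¬ m.sat φ₂ := by
  have H : ¬ Sep (sig φ₁ ∩ sig φ₂) (fun m => m.sat φ₁) (fun m => ¬ m.sat φ₂) := by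
    rintro ⟨ι, a, b, c⟩
    refine h ⟨ι, a, fun m => b m, fun m hs => ?_⟩
    by_contra hc
    exact c m hc hs
  obtain ⟨S, a, T, b, c, ⟨m, d1, d⟩, ⟨m', e1, e⟩⟩ := refine2 (sub φ₁) (sub φ₂) H
  have hv : ∀ n, Fm.var n ∈ sub φ₁ → Fm.var n ∈ sub φ₂ → n ∈ sig φ₁ ∩ sig φ₂ :=
    fun n a b => ⟨var_sub _ _ a, var_sub _ _ b⟩
  refine ⟨canon ⟨(S, T), a, b, c⟩, ?_, fun hs => ?_⟩
  · exact (truth1 (cl_sub _) (cl_sub _) hv _ (self_sub _) _).2 ((d _ (self_sub _)).1 d1)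
  · exact e1 ((e _ (self_sub _)).2 ((truth2 (cl_sub _) (cl_sub _) hv _ (self_sub _) _).1 hs))

lemma sat_lift {W : Type} (R : W → W → Prop) (V : ℕ → ULift.{u} W → Prop) (a : Fm) :
    ∀ x : ULift.{u} W, Sat (fun p q : ULift.{u} W => R p.down q.down) V a x ↔
      Sat R (fun n y => V n ⟨y⟩) a x.down := by
  induction a with
  | var n => intro x; rfl
  | bot => intro x; rfl
  | imp a b iha ihb => intro x; simp only [Sat, iha, ihb]
  | box a iha =>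
    intro x
    simp only [Sat, iha]
    exact ⟨fun h y hy => h ⟨y⟩ hy, fun h y hy => h y.down hy⟩

lemma crit : KripkeCrit.{u} Lob := by
  intro φ₁ φ₂
  constructor
  · intro h
    obtain ⟨m, h1, h2⟩ := cip φ₁ φ₂ h
    have hf : FrameFor Lob (fun p q : ULift.{u} m.W => m.R p.down q.down) := fun φ hφ V x =>
      (sat_lift _ _ _ _).2 (hφ { m with V := fun n y => V n ⟨y⟩, x := x.down })
    refine ⟨ULift m.W, ULift m.W, _, fun n y => m.V n y.down, _, fun n y => m.V n y.down, Eq,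
      ⟨m.x⟩, ⟨m.x⟩, hf, hf, ?_, rfl, (sat_lift _ _ _ _).2 h1,
      fun h => h2 ((sat_lift _ _ _ _).1 h)⟩
    rintro x _ rfl
    exact ⟨fun _ _ => Iff.rfl, fun y h => ⟨y, h, rfl⟩, fun y h => ⟨y, h, rfl⟩⟩
  · rintro ⟨W₁, W₂, R₁, V₁, R₂, V₂, Z, x₁, x₂, f1, f2, hb, hz, s1, s2⟩ ⟨ι, a, b, c⟩
    exact s2 (f2 _ c V₂ x₂ ((bisim_sat hb ι a x₁ x₂ hz).1 (f1 _ b V₁ x₁ s1)))

def dia (a : Fm) : Fm := .imp (.box (.imp a .bot)) .bot

def G : ℕ → Fm
  | 0 => dia (.var 0)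
  | n + 1 => .box (.imp (.var n) (dia (.var (n + 1))))

def chain (N : ℕ) : PM where
  W := Fin (N + 2)
  fin := inferInstance
  R := fun a b => a < b
  tr := fun _ _ _ => lt_trans
  ir := lt_irrefl
  V := fun n y => y.1 = n + 1
  x := 0

lemma chain_sat (N k : ℕ) (hk : k ≤ N) : (chain N).sat (G k) := by
  cases k with
  | zero =>
    intro h
    exact h (⟨1, by omega⟩ : Fin (N + 2)) (by simp [chain, Fin.lt_def]) rfl
  | succ n =>
    intro y _ hy h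
    refine h (⟨n + 2, by omega⟩ : Fin (N + 2)) ?_ rfl
    have : (show Fin (N + 2) from y).1 = n + 1 := hy
    show (show Fin (N + 2) from y).1 < n + 2
    omega

lemma sat_foldr (m : PM) (l : List Fm) (h : m.sat (l.foldr Fm.imp Fm.bot))
    (hl : ∀ a ∈ l, m.sat a) : False := by
  induction l with
  | nil => exact h
  | cons a l ih => exact ih (h (hl a (by simp))) (fun b hb => hl b (by simp [hb]))

lemma cons : Consistent Lob (Set.range G) := by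
  rintro ⟨l, h1, h2⟩
  have : ∃ N, ∀ a ∈ l, ∃ k ≤ N, G k = a := by
    clear h2
    induction l with
    | nil => simp
    | cons a l ih =>
      obtain ⟨N, hN⟩ := ih (fun b hb => h1 b (by simp [hb]))
      obtain ⟨k, hk⟩ := h1 a (by simp)
      refine ⟨max N k, fun b hb => ?_⟩
      rcases List.mem_cons.1 hb with rfl | hb
      · exact ⟨k, le_max_right _ _, hk⟩
      · obtain ⟨j, hj, e⟩ := hN b hb
        exact ⟨j, le_max_of_le_left hj, e⟩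
  obtain ⟨N, hN⟩ := this
  refine sat_foldr (chain N) l (h2 _) (fun a ha => ?_)
  obtain ⟨k, hk, rfl⟩ := hN a ha
  exact chain_sat N k hk

lemma lob : Fm.imp (.box (.imp (.box (.var 0)) (.var 0))) (.box (.var 0)) ∈ Lob := by
  intro m h y hy
  by_contra hc
  obtain ⟨z, hz, hmax⟩ := exmax m (fun y => m.R m.x y ∧ ¬ m.V 0 y) y ⟨hy, hc⟩
  refine hz.2 (h z hz.1 (fun w hw => ?_))
  by_contra hw'
  exact hmax w hw ⟨m.tr _ _ _ hz.1 hw, hw'⟩

lemma four : Fm.imp (.box (.var 0)) (.box (.box (.var 0))) ∈ Lob :=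
  fun m h y hy z hz => h z (m.tr _ _ _ hy hz)

theorem result : ∃ L : Set Fm, Normal L ∧ KripkeCrit.{u} L ∧ ¬ StronglyComplete.{u} L := by
  refine ⟨Lob, normal, crit, fun h => ?_⟩
  obtain ⟨W, R, V, x, hf, hs⟩ := h _ cons
  have tr : ∀ y z, R x y → R y z → R x z := fun y z hy hz =>
    hf _ four (fun _ w => R x w) x (fun w hw => hw) y hy z hz
  have st : ∀ n y, R x y → V n y → ∃ z, R y z ∧ V (n + 1) z := by
    intro n y hy hv
    by_contra hc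
    exact hs (G (n + 1)) ⟨_, rfl⟩ y hy hv (fun z hz hv' => hc ⟨z, hz, hv'⟩)
  have h0 := hf _ lob (fun _ w => ¬ ∃ n, V n w) x (by
    rintro y hy hb ⟨n, hn⟩
    obtain ⟨z, hz, hv⟩ := st n y hy hn
    exact hb z hz ⟨_, hv⟩)
  exact hs (G 0) ⟨_, rfl⟩ (fun y hy hv => h0 y hy ⟨0, hv⟩)

end Pool.Agent.Results.MP_e3277b_lc.Counter
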